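import Pool.Agent.Lib.MP_59b239_al.CJ.ZFR
import Pool.Agent.Lib.MP_59b239_al.CT.THN
import Pool.Agent.Lib.MP_59b239_al.CD.SUP
import Pool.Agent.Lib.MP_59b239_al.CD.PR3
import Pool.Agent.Lib.MP_59b239_al.CE.TOT
import Pool.Agent.Lib.MP_59b239_al.CE.WGT
import Pool.Agent.Lib.MP_59b239_al.CE.SUP

/-!
# The conjugacy problem for automatic groups of cohomological dimension two

`gen : Fin n → G` are generators of `G`; words are lists of letters `inl i` (for `gen i`) and `inr i`
(for its inverse), `ev gen w` is the value of a word `w` (`CJ/Defs.lean`).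

* `Automatic gen`: `G` has an automatic structure over `gen` (the same condition as in the frozen
  statement `S01561`).
* `Presents gen rel`: `⟨gen | rel⟩` is a finite presentation of `G`.
* `CdTwo gen rel` (`CE/Defs.lean`): `G` has cohomological dimension at most two. The images of the
  `2`-cells `(x, j)`, `x : G`, of the universal covering of the presentation complex under the boundary
  map `bdry : ℤ[G]^m → ℤ[G]^n` generate `ker (ℤ[G]^n → ℤ[G])`, and the condition says that this module
  is projective: `bdry` has a `G`-equivariant section `s` on its image (`P = s ∘ bdry`). If the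
  presentation is aspherical, i.e. `bdry` is injective, then the condition holds with `P = id`.
-/

namespace Pool.Agent.Results.MP_59b239_al.CohomologicalDimensionTwo

open Pool.Agent.Lib.MP59b239 Pool.Agent.Lib.MP59b239.CJ Pool.Agent.Lib.MP59b239.CE

/-- **Theorem.** Let `G` be an automatic group (over the generators `gen`) of cohomological dimension
at most two, and `⟨gen | rel⟩` a finite presentation of `G`. Then the conjugacy problem of `G` is
solvable. Moreover, there is a constant `K` such that if the words `p`, `q` represent conjugate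
elements `g = ev p` and `h = ev q`, then `h = (ev v)⁻¹ g (ev v)` for a word `v` of length
`≤ K ^ ((|p| + |q| + 1) ^ 5)`. -/
theorem result (G : Type) [Group G] (n m : ℕ) (gen : Fin n → G)
    (rel : Fin m → List (Fin n ⊕ Fin n)) (hpres : Presents gen rel) (haut : Automatic gen)
    (hcd : CdTwo gen rel) :
    (ComputablePred fun p : List (Fin n ⊕ Fin n) × List (Fin n ⊕ Fin n) =>
      IsConj (ev gen p.1) (ev gen p.2)) ∧
    ∃ K : ℕ, ∀ p q : List (Fin n ⊕ Fin n), IsConj (ev gen p) (ev gen q) →
      ∃ v : List (Fin n ⊕ Fin n), v.length ≤ K ^ ((p.length + q.length + 1) ^ 5) ∧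
        (ev gen v)⁻¹ * ev gen p * ev gen v = ev gen q := by
  have hCYC := specCYC specFLW specREL
  have hCBD : CE.SpecCBD := CE.specCBD (CE.specCOA CT.specCAR (CE.specWGT specFLW))
  have hPTH : CE.SpecPTH := CE.specPTH CE.specSUP CT.specTHN
  have hTOT : CE.SpecTOT := CE.specTOT (CT.specSUM CT.specCAR) (CE.specLVT CD.specRGZ CT.specCLU)
    (CE.specVER specFLW) CE.specPG2
  have hBNT : CE.SpecBNT := CE.specBNT CE.specANC CT.specPHI hCBD hPTH hTOT
  have hMKY : CE.SpecMKY := CE.specMKY specREL CE.specPRJ CE.specPNB (CE.specTOY hCYC specFRE)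
    (CE.specINY hCYC specZFR) specQUO (CD.specISR specLEN specREL) specWND CT.specLWT
    (CT.specLVQ specLVL)
  exact CE.specMAIN4 (CE.specCBT hMKY hBNT (CD.specNMA CT.specNMC) CD.specNMB)
    (specWPC specSRH specMEM specCHK) (CD.specPR3 specWRD specANY)
    G n m gen rel hpres haut hcd

end Pool.Agent.Results.MP_59b239_al.CohomologicalDimensionTwo
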